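import Pool.Agent.W292.RG.Stm

/-! Conflict free perfect pairings with a prescribed property of the pairs. -/

set_option autoImplicit false

namespace Pool.Agent.W538.RG

open Finset H331HC Pool.Agent.W292.RG

theorem P : St_P := by
  intro V _ _ G W D r b P _ hD hr1 hr2 hW hPs hPb hbig
  classical
  have hNc : ∀ x, (univ.filter (fun y => Gᶜ.Adj x y)).card ≤ D := by
    intro x
    have := hD x
    unfold ndeg at this
    rwa [Set.ncard_eq_toFinset_card' {y | Gᶜ.Adj x y}, Set.toFinset_ofPred] at this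
  let R : V → V → Prop := fun x y => x ≠ y ∧ G.Adj x y ∧ P x y ∧
    (W.filter (fun z => Gᶜ.Adj x z ∧ Gᶜ.Adj y z)).card ≤ r
  have hRs : ∀ x y, R x y → R y x := by
    rintro x y ⟨h1, h2, h3, h4⟩
    refine ⟨h1.symm, h2.symm, hPs x y h3, ?_⟩
    have : W.filter (fun z => Gᶜ.Adj y z ∧ Gᶜ.Adj x z) =
        W.filter (fun z => Gᶜ.Adj x z ∧ Gᶜ.Adj y z) := by
      ext z; simp only [mem_filter]; tauto
    rw [this]; exact h4
  have hbad : ∀ x ∈ W, 2 * ((W.filter (fun y => ¬ R x y)).card + D * r) ≤ W.card := by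
    intro x hx
    set X : Finset V := univ.filter (fun y => r < (W.filter (fun z => Gᶜ.Adj x z ∧ Gᶜ.Adj y z)).card)
      with hX
    have h1 : W.filter (fun y => ¬ R x y) ⊆ (({x} ∪ univ.filter (fun y => Gᶜ.Adj x y)) ∪
        W.filter (fun y => ¬ P x y)) ∪ X := by
      intro y hy
      rw [mem_filter] at hy
      rw [mem_union, mem_union, mem_union, mem_singleton]
      by_cases h1 : x = y
      · exact Or.inl (Or.inl (Or.inl h1.symm))
      by_cases h2 : G.Adj x y
      · by_cases h3 : P x y
        · right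
          rw [hX, mem_filter]
          refine ⟨mem_univ _, ?_⟩
          by_contra h4
          exact hy.2 ⟨h1, h2, h3, not_lt.1 h4⟩
        · left; right
          exact mem_filter.2 ⟨hy.1, h3⟩
      · left; left; right
        simp only [mem_filter, mem_univ, true_and]
        exact (SimpleGraph.compl_adj G _ _).2 ⟨h1, h2⟩
    have h3 : (r + 1) * X.card ≤ D * D := by
      calc (r + 1) * X.card = ∑ y ∈ X, (r + 1) := by rw [sum_const, smul_eq_mul, mul_comm]
        _ ≤ ∑ y ∈ X, (W.filter (fun z => Gᶜ.Adj x z ∧ Gᶜ.Adj y z)).card :=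
            sum_le_sum (fun y hy => (mem_filter.1 hy).2)
        _ ≤ ∑ y, (W.filter (fun z => Gᶜ.Adj x z ∧ Gᶜ.Adj y z)).card :=
            sum_le_sum_of_subset (subset_univ _)
        _ ≤ ∑ y, ∑ z ∈ univ.filter (fun z => Gᶜ.Adj x z), (if Gᶜ.Adj z y then 1 else 0) := by
            refine sum_le_sum (fun y _ => ?_)
            rw [← Finset.card_filter, Finset.filter_filter]
            refine card_le_card ?_
            intro z hz
            simp only [mem_filter, mem_univ, true_and] at hz ⊢
            exact ⟨hz.2.1, hz.2.2.symm⟩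
        _ = ∑ z ∈ univ.filter (fun z => Gᶜ.Adj x z), ∑ y, (if Gᶜ.Adj z y then 1 else 0) :=
            sum_comm
        _ = ∑ z ∈ univ.filter (fun z => Gᶜ.Adj x z), (univ.filter (fun y => Gᶜ.Adj z y)).card := by
            refine sum_congr rfl (fun z _ => ?_)
            rw [← Finset.card_filter]
        _ ≤ ∑ z ∈ univ.filter (fun z => Gᶜ.Adj x z), D := sum_le_sum (fun z _ => hNc z)
        _ = (univ.filter (fun z => Gᶜ.Adj x z)).card * D := by rw [sum_const, smul_eq_mul]
        _ ≤ D * D := Nat.mul_le_mul_right _ (hNc x)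
    have h4 : X.card ≤ D * (r + 1) := by
      have h5 : (r + 1) * X.card ≤ (r + 1) * (D * (r + 1)) := by
        calc (r + 1) * X.card ≤ D * D := h3
          _ ≤ D * ((r + 1) * (r + 1)) := Nat.mul_le_mul_left _ hr2.le
          _ = (r + 1) * (D * (r + 1)) := by ring
      exact Nat.le_of_mul_le_mul_left h5 (Nat.succ_pos r)
    have h6 : (W.filter (fun y => ¬ R x y)).card ≤ 1 + D + b + D * (r + 1) := by
      refine (card_le_card h1).trans ((card_union_le _ _).trans ?_)
      refine Nat.add_le_add ?_ h4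
      refine (card_union_le _ _).trans (Nat.add_le_add ?_ ?_)
      · refine (card_union_le _ _).trans (Nat.add_le_add ?_ (hNc x))
        rw [card_singleton]
      · refine le_trans (le_of_eq ?_) (hPb x hx)
        congr 1
    omega
  obtain ⟨f, hf1, hf2, hf3, hf4⟩ := perfect_pairing Gᶜ R hRs
    (fun x y h h' => ((SimpleGraph.compl_adj G _ _).1 h').2 h.2.1) (fun x h => h.1 rfl) W hW D r
    hNc (fun x y h => h.2.2.2) hbad
  refine ⟨f, hf1, hf2, fun x hx => ⟨?_, (hf3 x hx).1, (hf3 x hx).2.1, (hf3 x hx).2.2.1⟩, hf4⟩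
  by_contra hfx
  have h1 := hf2 (f x) hfx
  rw [hf1] at h1
  exact (hf3 x hx).1 h1

end Pool.Agent.W538.RG
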